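import Mathlib
import Pool.Graph.R_pool_sql_team_22c7b01f.H17.CW2

set_option autoImplicit false
set_option linter.unusedSectionVars false

namespace Pool.Agent.Results.MP_7df33c_an.NoRetract

open Set Topology Filter Pool.Agent.H17.CW

section

variable {X : Type} [TopologicalSpace X] {E : Type} [AddCommGroup E] [Module ℝ E]
  [TopologicalSpace E]

/-- Linear forms bounded by a multiple of the seminorm. -/
def D (p : Seminorm ℝ E) : Submodule ℝ (E →ₗ[ℝ] ℝ) where
  carrier := {f | ∃ C : ℝ, ∀ v, |f v| ≤ C * p v}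
  zero_mem' := ⟨0, fun v => by simp⟩
  add_mem' := by
    rintro f g ⟨C, hC⟩ ⟨C', hC'⟩
    refine ⟨C + C', fun v => ?_⟩
    rw [LinearMap.add_apply, add_mul]
    exact (abs_add_le _ _).trans (add_le_add (hC v) (hC' v))
  smul_mem' := by
    rintro c f ⟨C, hC⟩
    refine ⟨|c| * C, fun v => ?_⟩
    rw [LinearMap.smul_apply, smul_eq_mul, abs_mul, mul_assoc]
    exact mul_le_mul_of_nonneg_left (hC v) (abs_nonneg _)

theorem cont_of_le [IsTopologicalAddGroup E] {p : Seminorm ℝ E} (hp : Continuous p)
    (f : E →ₗ[ℝ] ℝ) (C : ℝ) (hf : ∀ v, |f v| ≤ C * p v) : Continuous f := by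
  apply continuous_of_continuousAt_zero f
  rw [ContinuousAt, map_zero]
  apply squeeze_zero_norm (a := fun v => C * p v)
  · intro v
    rw [Real.norm_eq_abs]
    exact hf v
  · have h1 : Tendsto (fun v => C * p v) (𝓝 0) (𝓝 (C * p 0)) :=
      (continuous_const.mul hp).continuousAt
    rwa [map_zero, mul_zero] at h1

/-- If the weak topology is a retract of some `C_p(X)`, then `D p` is finite dimensional. -/
theorem finite_D [IsTopologicalAddGroup E] {p : Seminorm ℝ E} (hp : Continuous p)
    {φ : {f : X → ℝ // Continuous f} → WeakSpace ℝ E}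
    {ψ : WeakSpace ℝ E → {f : X → ℝ // Continuous f}} (hφ : Continuous φ) (hψ : Continuous ψ)
    (h : ∀ v, φ (ψ v) = v) : FiniteDimensional ℝ (D p) := by
  classical
  by_contra hinf
  let b := Module.Basis.ofVectorSpace ℝ (D p)
  have hI : Infinite (Module.Basis.ofVectorSpaceIndex ℝ (D p)) := by
    by_contra hfin
    rw [not_infinite_iff_finite] at hfin
    exact hinf (Module.Finite.of_basis b)
  let l := Infinite.natEmbedding (Module.Basis.ofVectorSpaceIndex ℝ (D p))
  let f : ℕ → (E →ₗ[ℝ] ℝ) := fun n => (b (l n)).1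
  have hlin : LinearIndependent ℝ f :=
    ((b.linearIndependent.comp l l.injective).map' (D p).subtype (Submodule.ker_subtype _))
  have hC : ∀ n, ∃ C : ℝ, ∀ v, |f n v| ≤ C * p v := fun n => (b (l n)).2
  choose C hC using hC
  have hpos : ∀ n, 0 < |C n| + 1 := fun n => by positivity
  let e : ℕ → (E →ₗ[ℝ] ℝ) := fun n => (|C n| + 1)⁻¹ • f n
  have he : LinearIndependent ℝ e := by
    have := hlin.units_smul (fun n => Units.mk0 ((|C n| + 1)⁻¹) (inv_ne_zero (hpos n).ne'))
    exact this
  have heb : ∀ v n, |e n v| ≤ p v := by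
    intro v n
    show |(|C n| + 1)⁻¹ * f n v| ≤ p v
    rw [abs_mul, abs_of_pos (inv_pos.2 (hpos n)), inv_mul_le_iff₀ (hpos n)]
    refine (hC n v).trans (mul_le_mul_of_nonneg_right ?_ (apply_nonneg p v))
    have := le_abs_self (C n)
    linarith
  have hs : ∀ a : ℕ → Bool, ∃ α : E →L[ℝ] ℝ, ∀ v, α v = ss (fun n => e n v) a := by
    intro a
    let F : E →ₗ[ℝ] ℝ := ssL e (fun v => ⟨_, heb v⟩) a
    have hF : ∀ v, |F v| ≤ 2 * p v := by
      intro v
      have := tsum_of_norm_bounded (hasSum_geometric_two.mul_left (p v)) (bd (heb v) a)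
      rw [mul_comm] at this
      exact this
    exact ⟨⟨F, cont_of_le hp F 2 hF⟩, fun v => rfl⟩
  exact NH (toWeakSpace ℝ E).symm.toEquiv (fun α : E →L[ℝ] ℝ => α.toLinearMap) ⟨rfl⟩
    e he (fun v => ⟨p v, heb v⟩) hs hφ hψ h

/-- Hahn-Banach for a seminorm -/
theorem hb (p : Seminorm ℝ E) (v : E) (hv : p v ≠ 0) : ∃ f ∈ D p, f v ≠ 0 := by
  have hv0 : v ≠ 0 := by rintro rfl; simp at hv
  obtain ⟨g, hg1, hg2⟩ := exists_extension_of_le_sublinear
    (LinearPMap.mkSpanSingleton v (p v) hv0) p (fun c hc x => by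
      rw [map_smul_eq_mul, Real.norm_eq_abs, abs_of_pos hc]) (fun x y => map_add_le_add p x y) (by
      rintro ⟨x, hx⟩
      obtain ⟨c, rfl⟩ := Submodule.mem_span_singleton.1 hx
      rw [LinearPMap.mkSpanSingleton'_apply]
      show c • p v ≤ p (c • v)
      rw [map_smul_eq_mul, smul_eq_mul, Real.norm_eq_abs]
      exact mul_le_mul_of_nonneg_right (le_abs_self c) (apply_nonneg p v))
  refine ⟨g, ⟨1, fun x => ?_⟩, ?_⟩
  · rw [one_mul, abs_le]
    constructor
    · have := hg2 (-x)
      rw [map_neg, map_neg_eq_map] at this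
      linarith
    · exact hg2 x
  · have h1 := hg1 ⟨v, Submodule.mem_span_singleton_self v⟩
    rw [LinearPMap.mkSpanSingleton_apply] at h1
    have h2 : g v = p v := h1
    rw [h2]
    exact hv

/-- a seminorm with finitely many dominated linear forms is dominated by linear forms -/
theorem dominated (p : Seminorm ℝ E) [FiniteDimensional ℝ (D p)] :
    ∃ (n : ℕ) (f : Fin n → (E →ₗ[ℝ] ℝ)) (c : Fin n → ℝ), (∀ i, f i ∈ D p) ∧ (∀ i, 0 ≤ c i) ∧
      ∀ v, p v ≤ ∑ i, c i * |f i v| := by
  classical
  have hfree : Module.Free ℝ (D p) := Module.Free.of_basis (Module.Basis.ofVectorSpace ℝ (D p))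
  let b := Module.finBasis ℝ (D p)
  let n := Module.finrank ℝ (D p)
  let f : Fin n → (E →ₗ[ℝ] ℝ) := fun i => (b i).1
  let F : E →ₗ[ℝ] (Fin n → ℝ) := LinearMap.pi f
  have hker : ∀ v, F v = 0 → p v = 0 := by
    intro v hv
    by_contra hne
    obtain ⟨g, hg, hgv⟩ := hb p v hne
    apply hgv
    have h1 : (⟨g, hg⟩ : D p) = ∑ i, b.repr ⟨g, hg⟩ i • b i := (b.sum_repr _).symm
    have h2 : g = ∑ i, b.repr ⟨g, hg⟩ i • f i := by
      have := congrArg (D p).subtype h1
      rw [map_sum] at this
      simpa using this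
    rw [h2, LinearMap.sum_apply]
    apply Finset.sum_eq_zero
    intro i _
    have h3 : f i v = 0 := congrFun hv i
    rw [LinearMap.smul_apply, h3, smul_zero]
  -- a linear section
  obtain ⟨s, hs⟩ : ∃ s : (Fin n → ℝ) →ₗ[ℝ] E, ∀ v, F (s (F v)) = F v := by
    obtain ⟨g, hg⟩ := F.rangeRestrict.exists_rightInverse_of_surjective F.range_rangeRestrict
    obtain ⟨s, hs⟩ := LinearMap.exists_extend g
    refine ⟨s, fun v => ?_⟩
    have h1 : s (F v) = g (F.rangeRestrict v) := by
      have := LinearMap.congr_fun hs (F.rangeRestrict v)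
      exact this
    have h2 := LinearMap.congr_fun hg (F.rangeRestrict v)
    rw [h1]
    have h3 := congrArg Subtype.val h2
    exact h3
  refine ⟨n, f, fun i => p (s (Pi.single i 1)), fun i => (b i).2, fun i => apply_nonneg p _,
    fun v => ?_⟩
  have h1 : p (v - s (F v)) = 0 := hker _ (by rw [map_sub, hs, sub_self])
  have h2 : p v ≤ p (s (F v)) := by
    calc p v = p ((v - s (F v)) + s (F v)) := by rw [sub_add_cancel]
      _ ≤ p (v - s (F v)) + p (s (F v)) := map_add_le_add p _ _
      _ = p (s (F v)) := by rw [h1, zero_add]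
  refine h2.trans ?_
  have h3 : F v = ∑ i, (F v i) • (Pi.single i (1 : ℝ) : Fin n → ℝ) := by
    funext j
    rw [Finset.sum_apply]
    simp [Pi.single_apply]
  have h4 : s (F v) = ∑ i, (f i v) • s (Pi.single i 1) := by
    conv_lhs => rw [h3]
    rw [map_sum]
    refine Finset.sum_congr rfl fun i _ => ?_
    rw [map_smul]
    rfl
  rw [h4]
  refine (Finset.le_sum_of_subadditive p (map_zero p).le (map_add_le_add p) _ _).trans
    (Finset.sum_le_sum fun i _ => ?_)
  rw [map_smul_eq_mul, Real.norm_eq_abs, mul_comm]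

end

/-- **Locally convex spaces.** -/
theorem lcs (X : Type) [TopologicalSpace X] (E : Type) [AddCommGroup E] [Module ℝ E]
    [TopologicalSpace E] [IsTopologicalAddGroup E] [ContinuousSMul ℝ E] [LocallyConvexSpace ℝ E]
    (φ : {f : X → ℝ // Continuous f} → WeakSpace ℝ E)
    (ψ : WeakSpace ℝ E → {f : X → ℝ // Continuous f}) (hφ : Continuous φ) (hψ : Continuous ψ)
    (h : ∀ v, φ (ψ v) = v) : Continuous ((toWeakSpace ℝ E).symm : WeakSpace ℝ E → E) := by
  refine WithSeminorms.continuous_of_continuous_comp (with_gaugeSeminormFamily (𝕜 := ℝ) (E := E))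
    ((toWeakSpace ℝ E).symm : WeakSpace ℝ E →ₗ[ℝ] E) (fun i => ?_)
  set p := gaugeSeminormFamily ℝ E i with hpdef
  have hp : Continuous p := (with_gaugeSeminormFamily (𝕜 := ℝ) (E := E)).continuous_seminorm i
  have := finite_D hp hφ hψ h
  obtain ⟨n, f, c, hf, hc, hle⟩ := dominated p
  apply Seminorm.continuous_of_continuousAt_zero
  rw [ContinuousAt, map_zero]
  have hcont : ∀ i, Continuous (fun w : WeakSpace ℝ E => f i ((toWeakSpace ℝ E).symm w)) := by
    intro i
    obtain ⟨C, hC⟩ := hf i
    exact WeakBilin.eval_continuous (topDualPairing ℝ E).flip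
      (⟨f i, cont_of_le hp (f i) C hC⟩ : E →L[ℝ] ℝ)
  apply squeeze_zero (g := fun w : WeakSpace ℝ E =>
    ∑ i, c i * |f i ((toWeakSpace ℝ E).symm w)|)
  · intro w
    exact apply_nonneg _ w
  · intro w
    exact hle _
  · have h3 : Continuous (fun w : WeakSpace ℝ E =>
        ∑ i, c i * |f i ((toWeakSpace ℝ E).symm w)|) :=
      continuous_finsetSum _ fun i _ => continuous_const.mul (hcont i).abs
    have h4 := h3.tendsto 0
    simpa using h4

/-- `E` with its weak topology is a retract of `C_p(X)`: there are continuous maps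
`φ : C_p(X) → E_w` and `ψ : E_w → C_p(X)` with `φ ∘ ψ = id`. -/
def IsRetractOf (X : Type) [TopologicalSpace X] (E : Type) [AddCommGroup E] [Module ℝ E]
    [TopologicalSpace E] : Prop :=
  ∃ (φ : {f : X → ℝ // Continuous f} → WeakSpace ℝ E)
    (ψ : WeakSpace ℝ E → {f : X → ℝ // Continuous f}),
    Continuous φ ∧ Continuous ψ ∧ ∀ v, φ (ψ v) = v

theorem normed (X : Type) [TopologicalSpace X] (E : Type) [NormedAddCommGroup E]
    [NormedSpace ℝ E] (h : IsRetractOf X E) : FiniteDimensional ℝ E := by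
  obtain ⟨φ, ψ, hφ, hψ, h⟩ := h
  have := finite_D (p := normSeminorm ℝ E) (by exact continuous_norm) hφ hψ h
  obtain ⟨n, f, c, hf, hc, hle⟩ := dominated (normSeminorm ℝ E)
  have hinj : Function.Injective (LinearMap.pi f : E →ₗ[ℝ] (Fin n → ℝ)) := by
    rw [← LinearMap.ker_eq_bot, LinearMap.ker_eq_bot']
    intro v hv
    have h1 := hle v
    have h2 : ∑ i, c i * |f i v| = 0 := by
      apply Finset.sum_eq_zero
      intro i _
      have h3 : f i v = 0 := congrFun hv i
      rw [h3, abs_zero, mul_zero]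
    rw [h2] at h1
    have h3 : ‖v‖ ≤ 0 := h1
    exact norm_le_zero_iff.1 h3
  exact FiniteDimensional.of_injective _ hinj

/-- finite dimensional spaces -/
theorem homeo_of_finite (X : Type) [TopologicalSpace X] [DiscreteTopology X] [Finite X]
    (E : Type) [NormedAddCommGroup E] [NormedSpace ℝ E] [FiniteDimensional ℝ E]
    (hcard : Nat.card X = Module.finrank ℝ E) :
    Nonempty ({f : X → ℝ // Continuous f} ≃ₜ WeakSpace ℝ E) := by
  classical
  have : Fintype X := Fintype.ofFinite X
  rw [Nat.card_eq_fintype_card] at hcard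
  let b : Module.Basis X ℝ E := (Module.finBasis ℝ E).reindex
    ((finCongr hcard.symm).trans (Fintype.equivFin X).symm)
  let L : E ≃ₗ[ℝ] (X → ℝ) := b.equivFun
  refine ⟨{ toFun := fun f => toWeakSpace ℝ E (L.symm f.1)
            invFun := fun w => ⟨L ((toWeakSpace ℝ E).symm w), continuous_of_discreteTopology⟩
            left_inv := fun f => by
              apply Subtype.ext
              show L ((toWeakSpace ℝ E).symm (toWeakSpace ℝ E (L.symm f.1))) = f.1
              rw [LinearEquiv.symm_apply_apply, LinearEquiv.apply_symm_apply]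
            right_inv := fun w => by
              show toWeakSpace ℝ E (L.symm (L ((toWeakSpace ℝ E).symm w))) = w
              rw [LinearEquiv.symm_apply_apply, LinearEquiv.apply_symm_apply]
            continuous_toFun := ?_
            continuous_invFun := ?_ }⟩
  · exact (toWeakSpaceCLM ℝ E).continuous.comp
      ((LinearMap.continuous_of_finiteDimensional (L.symm : (X → ℝ) →ₗ[ℝ] E)).comp
        continuous_subtype_val)
  · apply Continuous.subtype_mk
    apply continuous_pi
    intro x
    let g : E →ₗ[ℝ] ℝ := (LinearMap.proj x).comp (L : E →ₗ[ℝ] (X → ℝ))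
    exact WeakBilin.eval_continuous (topDualPairing ℝ E).flip
      (⟨g, LinearMap.continuous_of_finiteDimensional g⟩ : E →L[ℝ] ℝ)

theorem finite_of_homeo (X : Type) [TopologicalSpace X] [T35Space X] (E : Type)
    [NormedAddCommGroup E] [NormedSpace ℝ E]
    (h : {f : X → ℝ // Continuous f} ≃ₜ WeakSpace ℝ E) : Finite X := by
  classical
  have hr : IsRetractOf X E :=
    ⟨h, h.symm, h.continuous, h.symm.continuous, h.apply_symm_apply⟩
  have hfd := normed X E hr
  have hcont := lcs X E h h.symm h.continuous h.symm.continuous h.apply_symm_apply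
  let e : WeakSpace ℝ E ≃ₜ E :=
    { toFun := (toWeakSpace ℝ E).symm
      invFun := toWeakSpace ℝ E
      left_inv := fun w => (toWeakSpace ℝ E).apply_symm_apply w
      right_inv := fun w => (toWeakSpace ℝ E).symm_apply_apply w
      continuous_toFun := hcont
      continuous_invFun := (toWeakSpaceCLM ℝ E).continuous }
  have : ProperSpace E := FiniteDimensional.proper ℝ E
  have hlc : LocallyCompactSpace {f : X → ℝ // Continuous f} :=
    (h.trans e).isClosedEmbedding.locallyCompactSpace
  obtain ⟨C, hC, hC0⟩ := exists_compact_mem_nhds (⟨0, continuous_zero⟩ : {f : X → ℝ // Continuous f})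
  rw [nhds_subtype_eq_comap, mem_comap] at hC0
  obtain ⟨t, ht, htC⟩ := hC0
  obtain ⟨t', ht't, ht'o, ht'0⟩ := mem_nhds_iff.1 ht
  obtain ⟨I, u, hu, hI⟩ := isOpen_pi_iff.1 ht'o _ ht'0
  by_contra hinf
  rw [not_finite_iff_infinite] at hinf
  obtain ⟨y, hy⟩ := Infinite.exists_notMem_finset I
  obtain ⟨g, hg, hgy, hgI⟩ := CompletelyRegularSpace.completely_regular y (I : Set X)
    I.finite_toSet.isClosed (by simpa using hy)
  let G : ℝ → {f : X → ℝ // Continuous f} := fun r =>
    ⟨fun x => r * (1 - (g x : ℝ)), continuous_const.mul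
      (continuous_const.sub (continuous_subtype_val.comp hg))⟩
  have hGC : ∀ r, G r ∈ C := by
    intro r
    apply htC
    apply ht't
    apply hI
    intro x hx
    have h1 : (g x : ℝ) = 1 := by
      have := hgI hx
      rw [this]; rfl
    show r * (1 - (g x : ℝ)) ∈ u x
    rw [h1, sub_self, mul_zero]
    exact (hu x hx).2
  have hev : Continuous (fun f : {f : X → ℝ // Continuous f} => f.1 y) :=
    (continuous_apply y).comp continuous_subtype_val
  obtain ⟨B, hB⟩ := (hC.image hev).isBounded.exists_norm_le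
  have h2 := hB ((|B| + 1) * (1 - (g y : ℝ))) ⟨G (|B| + 1), hGC _, rfl⟩
  rw [hgy] at h2
  have h3 : ((0 : unitInterval) : ℝ) = 0 := rfl
  rw [h3, sub_zero, mul_one, Real.norm_eq_abs, abs_of_nonneg (by positivity)] at h2
  have := le_abs_self B
  linarith

/-- **Main theorem.**
(1) Let `E` be a real locally convex space.  If `E` with its weak topology is a retract of `C_p(X)`
for some topological space `X`, then the topology of `E` is its weak topology.
(2) A normed space with its weak topology is a retract of some `C_p(X)` iff it is finite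
dimensional.
(3) In particular, for every infinite compact Hausdorff space `K` and every topological space `X`,
the space `C_w(K)` is not a retract of `C_p(X)`.
(4) If `X` is Tychonoff, `E` is normed and `C_p(X)` is homeomorphic to `E_w`, then `X` is finite
and `E` is finite dimensional; if `|X| = dim E < ∞`, they are homeomorphic. -/
theorem result :
    (∀ (X : Type) [TopologicalSpace X] (E : Type) [AddCommGroup E] [Module ℝ E]
      [TopologicalSpace E] [IsTopologicalAddGroup E] [ContinuousSMul ℝ E]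
      [LocallyConvexSpace ℝ E], IsRetractOf X E →
        Continuous ((toWeakSpace ℝ E).symm : WeakSpace ℝ E → E)) ∧
    (∀ (E : Type) [NormedAddCommGroup E] [NormedSpace ℝ E],
      (∃ (X : Type) (_ : TopologicalSpace X), IsRetractOf X E) ↔ FiniteDimensional ℝ E) ∧
    (∀ (X : Type) [TopologicalSpace X] (K : Type) [TopologicalSpace K] [CompactSpace K]
      [T2Space K] [Infinite K], ¬ IsRetractOf X C(K, ℝ)) ∧
    (∀ (X : Type) [TopologicalSpace X] [T35Space X] (E : Type) [NormedAddCommGroup E]
      [NormedSpace ℝ E],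
      (Nonempty ({f : X → ℝ // Continuous f} ≃ₜ WeakSpace ℝ E) →
        Finite X ∧ FiniteDimensional ℝ E) ∧
      (Finite X → FiniteDimensional ℝ E → Nat.card X = Module.finrank ℝ E →
        Nonempty ({f : X → ℝ // Continuous f} ≃ₜ WeakSpace ℝ E))) := by
  refine ⟨fun X _ E _ _ _ _ _ _ ⟨φ, ψ, hφ, hψ, h⟩ => lcs X E φ ψ hφ hψ h, fun E _ _ => ⟨?_, ?_⟩,
    fun X _ K _ _ _ _ ⟨φ, ψ, hφ, hψ, h⟩ => ?_, fun X _ _ E _ _ => ⟨?_, ?_⟩⟩
  · rintro ⟨X, _, h⟩
    exact normed X E h
  · intro hE
    obtain ⟨h⟩ := homeo_of_finite (Fin (Module.finrank ℝ E)) E (by simp)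
    exact ⟨Fin (Module.finrank ℝ E), inferInstance, h, h.symm, h.continuous, h.symm.continuous,
      h.apply_symm_apply⟩
  · exact CK (X := X) (L := K) (toWeakSpace ℝ C(K, ℝ)).symm.toEquiv ⟨rfl⟩ hφ hψ h
  · rintro ⟨h⟩
    exact ⟨finite_of_homeo X E h,
      normed X E ⟨h, h.symm, h.continuous, h.symm.continuous, h.apply_symm_apply⟩⟩
  · intro h1 h2 h3
    exact homeo_of_finite X E h3

end Pool.Agent.Results.MP_7df33c_an.NoRetract
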